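import Mathlib

/-!
CX (MP_f22a19_gt): the reflection attached to a simple eigenvalue of a matrix.

`proj M = adj M / tr (adj M)` for a singular matrix `M` with `tr (adj M) ≠ 0` is a projection of rank one
and commutes with every matrix which commutes with `M`; `refl M = 1 - 2 proj M`.
-/

set_option autoImplicit false

open Matrix

namespace Pool.Helper25.CX

variable {n : Type*} [Fintype n] [DecidableEq n] {K : Type*} [Field K]

/-- a vector in the kernel of `M` is determined by one coordinate, if the corresponding minor is not `0` -/
theorem ker_line (M : Matrix n n K) {i₀ j₀ : n} (h : M.adjugate i₀ j₀ ≠ 0) (w : n → K)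
    (hw : M *ᵥ w = 0) (h0 : w i₀ = 0) : w = 0 := by
  rw [adjugate_apply] at h
  refine eq_zero_of_mulVec_eq_zero h ?_
  ext j
  by_cases hj : j = j₀
  · subst hj
    simp [mulVec, dotProduct, updateRow_self, h0, Pi.single_apply]
  · have := congrFun hw j
    simpa [mulVec, dotProduct, updateRow_ne hj] using this

theorem adj_rank_one (M : Matrix n n K) (hM : M.det = 0) (i j i₀ j₀ : n) :
    M.adjugate i j * M.adjugate i₀ j₀ = M.adjugate i₀ j * M.adjugate i j₀ := by
  by_cases h : M.adjugate i₀ j₀ = 0
  · -- both sides vanish or we exchange the roles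
    by_cases h2 : M.adjugate i₀ j = 0
    · rw [h, h2]; ring
    · -- use the pivot `(i₀, j)`
      have hk : ∀ k : n, M *ᵥ (fun l => M.adjugate l k) = 0 := by
        intro k
        have := congrArg (fun A : Matrix n n K => fun l => A l k) (mul_adjugate M)
        ext l
        have := congrFun this l
        simpa [hM, mul_apply, mulVec, dotProduct] using this
      have hz := ker_line M h2 (fun l => M.adjugate l j₀) (hk j₀) h
      have := congrFun hz i
      simp only [Pi.zero_apply] at this
      rw [h, this]; ring
  · have hk : ∀ k : n, M *ᵥ (fun l => M.adjugate l k) = 0 := by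
      intro k
      have := congrArg (fun A : Matrix n n K => fun l => A l k) (mul_adjugate M)
      ext l
      have := congrFun this l
      simpa [hM, mul_apply, mulVec, dotProduct] using this
    have hz := ker_line M h (M.adjugate i₀ j₀ • (fun l => M.adjugate l j)
      - M.adjugate i₀ j • (fun l => M.adjugate l j₀))
      (by rw [mulVec_sub, mulVec_smul, mulVec_smul, hk, hk]; simp) (by simp; ring)
    have := congrFun hz i
    simp only [Pi.sub_apply, Pi.smul_apply, smul_eq_mul, Pi.zero_apply] at this
    linear_combination this

/-- the adjugate of a singular matrix: `adj² = tr(adj) adj` -/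
theorem adj_sq (M : Matrix n n K) (hM : M.det = 0) :
    M.adjugate * M.adjugate = M.adjugate.trace • M.adjugate := by
  ext i j
  rw [mul_apply, Matrix.smul_apply, smul_eq_mul, trace, Finset.sum_mul]
  exact Finset.sum_congr rfl fun k _ => adj_rank_one M hM i k k j

/-- `adj M` commutes with every invertible matrix which commutes with `M` -/
theorem adj_comm (M X : Matrix n n K) (hX : X.det ≠ 0) (h : X * M = M * X) :
    X * M.adjugate = M.adjugate * X := by
  have h1 : M.adjugate * X.adjugate = X.adjugate * M.adjugate := by
    rw [← adjugate_mul_distrib, ← adjugate_mul_distrib, h]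
  have h2 : X.det • (M.adjugate * X) = X.det • (X * M.adjugate) := by
    have h3 := congrArg (fun A => X * A * X) h1
    beta_reduce at h3
    have e1 : X * (M.adjugate * X.adjugate) * X = X.det • (X * M.adjugate) := by
      rw [← Matrix.mul_assoc, Matrix.mul_assoc (X * M.adjugate), adjugate_mul]
      simp
    have e2 : X * (X.adjugate * M.adjugate) * X = X.det • (M.adjugate * X) := by
      rw [← Matrix.mul_assoc, mul_adjugate]
      simp
    rw [e1, e2] at h3
    exact h3.symm
  have := congrArg (fun A => (X.det)⁻¹ • A) h2
  simp only [smul_smul, inv_mul_cancel₀ hX, one_smul] at this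
  exact this.symm

/-- the projection to the kernel of a singular matrix -/
noncomputable def proj (M : Matrix n n K) : Matrix n n K := (M.adjugate.trace)⁻¹ • M.adjugate

theorem proj_sq (M : Matrix n n K) (hM : M.det = 0) (ht : M.adjugate.trace ≠ 0) :
    proj M * proj M = proj M := by
  unfold proj
  rw [Matrix.smul_mul, Matrix.mul_smul, adj_sq M hM, smul_smul, smul_smul]
  congr 1
  field_simp

theorem proj_comm (M X : Matrix n n K) (hX : X.det ≠ 0) (h : X * M = M * X) :
    X * proj M = proj M * X := by
  unfold proj
  rw [Matrix.mul_smul, Matrix.smul_mul, adj_comm M X hX h]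

/-- the reflection `1 - 2 proj (γ - lam)` at a simple eigenvalue `lam` of `γ` -/
noncomputable def refl (g : Matrix n n K) (lam : K) : Matrix n n K := 1 - (2 : K) • proj (g - lam • (1 : Matrix n n K))

theorem refl_sq (g : Matrix n n K) (lam : K) (h : (g - lam • (1 : Matrix n n K)).det = 0)
    (ht : (g - lam • (1 : Matrix n n K)).adjugate.trace ≠ 0) : refl g lam * refl g lam = 1 := by
  have := proj_sq _ h ht
  unfold refl
  simp only [sub_mul, mul_sub, Matrix.smul_mul, Matrix.mul_smul, this, Matrix.one_mul, Matrix.mul_one]
  module

theorem refl_comm (g X : Matrix n n K) (lam : K) (hX : X.det ≠ 0) (h : X * g = g * X) :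
    X * refl g lam = refl g lam * X := by
  have h1 : X * (g - lam • (1 : Matrix n n K)) = (g - lam • (1 : Matrix n n K)) * X := by
    rw [mul_sub, sub_mul, h]
    simp
  have := proj_comm _ X hX h1
  unfold refl
  rw [mul_sub, sub_mul, Matrix.mul_smul, this, Matrix.smul_mul]
  simp

end Pool.Helper25.CX
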